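import Pool.Agent.Helper93.KN.St

/-!
# Module PAIR of project KN (MP_77e955_nt): the sieve for one and for two linear forms
-/

set_option autoImplicit false

noncomputable section

namespace Pool.Agent.Helper86.KN

open Finset ArithmeticFunction Pool.Agent.Helper93.KN
open Pool.Agent.Helper60.GP (IsB JJ II Err)

open Classical in
/-- the classes `s < l` with `l ∣ b (s - b) - 1` -/
private def R (b l : ℕ) : Finset ℕ :=
  (range l).filter (fun s => (b : ZMod l) * ((s : ZMod l) - b) = 1)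

private theorem mem_R {b l s : ℕ} :
    s ∈ R b l ↔ s < l ∧ (b : ZMod l) * ((s : ZMod l) - b) = 1 := by
  unfold R
  rw [mem_filter, mem_range]

private theorem ne_zero_of {l b : ℕ} {t : ZMod l} (hl : l.Prime) (h : (b : ZMod l) * t = 1) :
    (b : ZMod l) ≠ 0 := by
  have : Fact l.Prime := ⟨hl⟩
  intro h0
  rw [h0, zero_mul] at h
  exact zero_ne_one h

private theorem R_card_le (b : ℕ) {l : ℕ} (hl : l.Prime) : (R b l).card ≤ 1 := by
  have : Fact l.Prime := ⟨hl⟩
  rw [Finset.card_le_one]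
  intro s hs t ht
  obtain ⟨h1, h2⟩ := mem_R.1 hs
  obtain ⟨h3, h4⟩ := mem_R.1 ht
  have hb := ne_zero_of hl h2
  have h5 : (s : ZMod l) = t := by
    have h6 : (b : ZMod l) * ((s : ZMod l) - b) = b * ((t : ZMod l) - b) := by rw [h2, h4]
    exact sub_left_inj.1 (mul_left_cancel₀ hb h6)
  rw [ZMod.natCast_eq_natCast_iff'] at h5
  rwa [Nat.mod_eq_of_lt h1, Nat.mod_eq_of_lt h3] at h5

private theorem R_card_eq (b : ℕ) {l : ℕ} (hl : l.Prime) (hb : ¬ l ∣ b) : (R b l).card = 1 := by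
  have : Fact l.Prime := ⟨hl⟩
  refine le_antisymm (R_card_le b hl) (card_pos.2 ⟨((b : ZMod l) + (b : ZMod l)⁻¹).val, ?_⟩)
  have hb0 : (b : ZMod l) ≠ 0 := fun h => hb ((ZMod.natCast_eq_zero_iff _ _).1 h)
  rw [mem_R, ZMod.natCast_zmod_val, add_sub_cancel_left, mul_inv_cancel₀ hb0]
  exact ⟨ZMod.val_lt _, rfl⟩

private theorem R_disj {b c l : ℕ} (hb : 1 ≤ b) (hc : 1 ≤ c) (hl : l.Prime) (h : ¬ l ∣ EE b c) :
    Disjoint (R b l) (R c l) := by
  have : Fact l.Prime := ⟨hl⟩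
  rw [Finset.disjoint_left]
  intro s hs ht
  obtain ⟨-, h2⟩ := mem_R.1 hs
  obtain ⟨-, h4⟩ := mem_R.1 ht
  have h5 : ((b : ZMod l) - c) * ((b : ZMod l) * c - 1) = 0 := by
    linear_combination (b : ZMod l) * h4 - (c : ZMod l) * h2
  rcases mul_eq_zero.1 h5 with h6 | h6
  · apply h
    have h7 : (l : ℤ) ∣ (b : ℤ) - c := by
      rw [← ZMod.intCast_zmod_eq_zero_iff_dvd]
      push_cast
      exact h6
    have h8 : l ∣ ((b : ℤ) - c).natAbs := Int.natCast_dvd.1 h7
    unfold EE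
    exact (h8.mul_left _).mul_right _
  · apply h
    have hbc : 1 ≤ b * c := Nat.mul_pos hb hc
    have h7 : l ∣ b * c - 1 := by
      rw [← ZMod.natCast_eq_zero_iff, Nat.cast_sub hbc]
      push_cast
      exact h6
    unfold EE
    exact h7.mul_left _

private theorem one_le_ff (m : ℕ) : 1 ≤ ff m := by
  unfold ff
  refine Finset.prod_induction _ (fun x : ℝ => 1 ≤ x)
    (fun a b ha hb => one_le_mul_of_one_le_of_one_le ha hb) le_rfl ?_
  intro l _
  have : (0 : ℝ) ≤ 4 / (l : ℝ) := by positivity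
  linarith

/-- if `b (n - b) - 1` is prime and is hit by the sieve then it is small -/
private theorem hit {b n l : ℕ} (hl : l.Prime) (hp : (b * (n - b) - 1).Prime)
    (h : n % l ∈ R b l) : b * (n - b) - 1 = l := by
  obtain ⟨-, h2⟩ := mem_R.1 h
  have h3 : 2 ≤ b * (n - b) - 1 := hp.two_le
  have h4 : 1 ≤ b * (n - b) := by omega
  have h5 : b ≤ n := by
    by_contra hcon
    have : n - b = 0 := by omega
    rw [this, mul_zero] at h4
    omega
  have h6 : l ∣ b * (n - b) - 1 := by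
    rw [← ZMod.natCast_eq_zero_iff, Nat.cast_sub h4, Nat.cast_mul, Nat.cast_sub h5]
    rw [ZMod.natCast_mod] at h2
    rw [h2]
    simp
  exact ((Nat.prime_dvd_prime_iff_eq hl hp).1 h6).symm

/-- few `n` give a small prime -/
private theorem few (b N : ℕ) (Y : ℝ) (hY : 0 ≤ Y) :
    (((Icc 1 N).filter (fun n : ℕ => (b * (n - b) - 1).Prime ∧
      ((b * (n - b) - 1 : ℕ) : ℝ) ≤ Y)).card : ℝ) ≤ Y + 1 := by
  have hsub : (Icc 1 N).filter (fun n : ℕ => (b * (n - b) - 1).Prime ∧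
      ((b * (n - b) - 1 : ℕ) : ℝ) ≤ Y) ⊆ Ioc b (b + (⌊Y⌋₊ + 1)) := by
    intro n hn
    obtain ⟨-, hp, hy⟩ := mem_filter.1 hn
    have h1 : b * (n - b) - 1 ≤ ⌊Y⌋₊ := Nat.le_floor hy
    have h2 := hp.two_le
    have h3 : 1 ≤ n - b := by
      by_contra hcon
      have : n - b = 0 := by omega
      rw [this, mul_zero] at h2
      omega
    have h4 : 1 ≤ b := by
      by_contra hcon
      have : b = 0 := by omega
      rw [this, zero_mul] at h2
      omega
    have h5 : n - b ≤ b * (n - b) := Nat.le_mul_of_pos_left _ h4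
    rw [mem_Ioc]
    omega
  have h1 := card_le_card hsub
  rw [Nat.card_Ioc] at h1
  have h2 : ((Icc 1 N).filter (fun n : ℕ => (b * (n - b) - 1).Prime ∧
      ((b * (n - b) - 1 : ℕ) : ℝ) ≤ Y)).card ≤ ⌊Y⌋₊ + 1 := by omega
  have h3 : ((⌊Y⌋₊ : ℕ) : ℝ) ≤ Y := Nat.floor_le hY
  have h4 : (((Icc 1 N).filter (fun n : ℕ => (b * (n - b) - 1).Prime ∧
      ((b * (n - b) - 1 : ℕ) : ℝ) ≤ Y)).card : ℝ) ≤ ((⌊Y⌋₊ + 1 : ℕ) : ℝ) := by exact_mod_cast h2
  push_cast at h4
  linarith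

/-- comparison of the error with the main term -/
private theorem small {N : ℕ} (hN : 2 ≤ N) {δ : ℝ} (hδ : δ ≤ 1 / 4) :
    (N : ℝ) ^ δ + 1 ≤ 8 * (N / Real.log N) ∧ (N : ℝ) ^ δ + 1 ≤ 32 * (N / Real.log N ^ 2) := by
  have hN1 : (1 : ℝ) < N := by exact_mod_cast (by omega : 1 < N)
  have hlog : 0 < Real.log N := Real.log_pos hN1
  set t : ℝ := (N : ℝ) ^ (1 / 4 : ℝ) with ht
  have ht1 : 1 ≤ t := Real.one_le_rpow hN1.le (by norm_num)
  have h1 : (N : ℝ) ^ δ ≤ t := Real.rpow_le_rpow_of_exponent_le hN1.le hδ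
  have h2 : Real.log N ≤ 4 * t := by
    have h3 := Real.log_le_rpow_div (x := (N : ℝ)) (by linarith) (ε := 1 / 4) (by norm_num)
    rw [← ht] at h3
    linarith
  have h4 : (N : ℝ) = t ^ 4 := by
    rw [ht, ← Real.rpow_natCast, ← Real.rpow_mul (by linarith)]
    norm_num
  have h5 : t ≤ t ^ 3 := by nlinarith [mul_nonneg (sub_nonneg.2 ht1) (sub_nonneg.2 ht1)]
  have h6 : t ≤ t ^ 2 := by nlinarith
  have h7 : t ^ 3 / 4 ≤ N / Real.log N := by
    rw [le_div_iff₀ hlog, h4]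
    have h8 : t ^ 3 / 4 * Real.log N ≤ t ^ 3 / 4 * (4 * t) :=
      mul_le_mul_of_nonneg_left h2 (by positivity)
    calc t ^ 3 / 4 * Real.log (t ^ 4) = t ^ 3 / 4 * Real.log N := by rw [h4]
      _ ≤ t ^ 3 / 4 * (4 * t) := h8
      _ = t ^ 4 := by ring
  have h9 : t ^ 2 / 16 ≤ N / Real.log N ^ 2 := by
    rw [le_div_iff₀ (by positivity)]
    have h8 : Real.log N ^ 2 ≤ (4 * t) ^ 2 := pow_le_pow_left₀ hlog.le h2 2
    have h10 : t ^ 2 / 16 * Real.log N ^ 2 ≤ t ^ 2 / 16 * (4 * t) ^ 2 :=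
      mul_le_mul_of_nonneg_left h8 (by positivity)
    calc t ^ 2 / 16 * Real.log N ^ 2 ≤ t ^ 2 / 16 * (4 * t) ^ 2 := h10
      _ = t ^ 4 := by ring
      _ = N := h4.symm
  constructor
  · linarith
  · linarith

open Classical in
/-- Module PAIR. -/
theorem hPair (hS : StSieve) : StPair := by
  obtain ⟨C₁, δ₁, hC₁, hδ₁, hδ₁', h1⟩ := hS 1 le_rfl (by norm_num)
  obtain ⟨C₂, δ₂, hC₂, hδ₂, hδ₂', h2⟩ := hS 2 (by norm_num) le_rfl
  refine ⟨C₁ + C₂ + 64, by positivity, ?_⟩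
  intro N b c hN hb hc
  have hN1 : (1 : ℝ) < N := by exact_mod_cast (by omega : 1 < N)
  have hlog : 0 < Real.log N := Real.log_pos hN1
  constructor
  · -- one form
    have hs := h1 N hN (R b) b (by omega) (fun l hl _ => ⟨fun s hs => (mem_R.1 hs).1,
      R_card_le b hl, fun h => R_card_eq b hl h⟩)
    have hfew := few b N ((N : ℝ) ^ δ₁) (by positivity)
    have hsub : (Icc 1 N).filter (fun n : ℕ => (b * (n - b) - 1).Prime) ⊆
        ((Icc 1 N).filter (fun n : ℕ => ∀ l : ℕ, l.Prime → 5 ≤ l → (l : ℝ) ≤ (N : ℝ) ^ δ₁ →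
          n % l ∉ R b l)) ∪
        ((Icc 1 N).filter (fun n : ℕ => (b * (n - b) - 1).Prime ∧
          ((b * (n - b) - 1 : ℕ) : ℝ) ≤ (N : ℝ) ^ δ₁)) := by
      intro n hn
      obtain ⟨hn1, hp⟩ := mem_filter.1 hn
      by_cases hcase : ∀ l : ℕ, l.Prime → 5 ≤ l → (l : ℝ) ≤ (N : ℝ) ^ δ₁ → n % l ∉ R b l
      · exact mem_union_left _ (mem_filter.2 ⟨hn1, hcase⟩)
      · push Not at hcase
        obtain ⟨l, hl, _, hlN, hmem⟩ := hcase
        refine mem_union_right _ (mem_filter.2 ⟨hn1, hp, ?_⟩)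
        rw [hit hl hp hmem]
        exact hlN
    have hcard : (((Icc 1 N).filter (fun n : ℕ => (b * (n - b) - 1).Prime)).card : ℝ) ≤
        (((Icc 1 N).filter (fun n : ℕ => ∀ l : ℕ, l.Prime → 5 ≤ l → (l : ℝ) ≤ (N : ℝ) ^ δ₁ →
          n % l ∉ R b l)).card : ℝ) + (((Icc 1 N).filter (fun n : ℕ =>
          (b * (n - b) - 1).Prime ∧ ((b * (n - b) - 1 : ℕ) : ℝ) ≤ (N : ℝ) ^ δ₁)).card : ℝ) := by
      exact_mod_cast (card_le_card hsub).trans (card_union_le _ _)
    have hsm := (small hN hδ₁').1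
    have hff := one_le_ff b
    rw [pow_one] at hs
    have hX : 0 ≤ (N : ℝ) / Real.log N := by positivity
    have h3 : 8 * ((N : ℝ) / Real.log N) ≤ (C₂ + 64) * (N / Real.log N) * ff b := by
      have h4 : 8 * ((N : ℝ) / Real.log N) ≤ (C₂ + 64) * (N / Real.log N) :=
        mul_le_mul_of_nonneg_right (by linarith) hX
      have h5 : (C₂ + 64) * ((N : ℝ) / Real.log N) * 1 ≤ (C₂ + 64) * (N / Real.log N) * ff b :=
        mul_le_mul_of_nonneg_left hff (by positivity)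
      linarith
    have h6 : (C₁ + C₂ + 64) * ((N : ℝ) / Real.log N) * ff b =
        C₁ * (N / Real.log N) * ff b + (C₂ + 64) * (N / Real.log N) * ff b := by ring
    rw [h6]
    linarith
  · -- two forms
    intro hbc
    have hE : EE b c ≠ 0 := by
      unfold EE
      have h3 : ((b : ℤ) - c).natAbs ≠ 0 := by omega
      have h4 : b * c - 1 ≠ 0 := by
        intro h5
        have h6 : b * c ≤ 1 := by omega
        have h7 : b ≤ b * c := Nat.le_mul_of_pos_right _ hc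
        have h8 : c ≤ b * c := Nat.le_mul_of_pos_left _ hb
        omega
      exact mul_ne_zero (mul_ne_zero (mul_ne_zero (by omega) (by omega)) h3) h4
    have hs := h2 N hN (fun l => R b l ∪ R c l) (EE b c) hE (fun l hl _ => ⟨fun s hs => by
        rcases mem_union.1 hs with h | h
        · exact (mem_R.1 h).1
        · exact (mem_R.1 h).1, by
        have h3 := card_union_le (R b l) (R c l)
        have h4 := R_card_le b hl
        have h5 := R_card_le c hl
        omega, fun h => by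
        have hb' : ¬ l ∣ b := fun h' => h (by
          unfold EE
          exact (((h'.mul_right _).mul_right _).mul_right _))
        have hc' : ¬ l ∣ c := fun h' => h (by
          unfold EE
          exact (((h'.mul_left _).mul_right _).mul_right _))
        rw [card_union_of_disjoint (R_disj hb hc hl h), R_card_eq b hl hb', R_card_eq c hl hc']⟩)
    have hfb := few b N ((N : ℝ) ^ δ₂) (by positivity)
    have hfc := few c N ((N : ℝ) ^ δ₂) (by positivity)
    have hsub : (Icc 1 N).filter (fun n : ℕ => (b * (n - b) - 1).Prime ∧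
        (c * (n - c) - 1).Prime) ⊆
        ((Icc 1 N).filter (fun n : ℕ => ∀ l : ℕ, l.Prime → 5 ≤ l → (l : ℝ) ≤ (N : ℝ) ^ δ₂ →
          n % l ∉ R b l ∪ R c l)) ∪
        (((Icc 1 N).filter (fun n : ℕ => (b * (n - b) - 1).Prime ∧
          ((b * (n - b) - 1 : ℕ) : ℝ) ≤ (N : ℝ) ^ δ₂)) ∪
        ((Icc 1 N).filter (fun n : ℕ => (c * (n - c) - 1).Prime ∧
          ((c * (n - c) - 1 : ℕ) : ℝ) ≤ (N : ℝ) ^ δ₂))) := by
      intro n hn
      obtain ⟨hn1, hp, hp'⟩ := mem_filter.1 hn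
      by_cases hcase : ∀ l : ℕ, l.Prime → 5 ≤ l → (l : ℝ) ≤ (N : ℝ) ^ δ₂ →
          n % l ∉ R b l ∪ R c l
      · exact mem_union_left _ (mem_filter.2 ⟨hn1, hcase⟩)
      · push Not at hcase
        obtain ⟨l, hl, _, hlN, hmem⟩ := hcase
        rcases mem_union.1 hmem with h | h
        · refine mem_union_right _ (mem_union_left _ (mem_filter.2 ⟨hn1, hp, ?_⟩))
          rw [hit hl hp h]
          exact hlN
        · refine mem_union_right _ (mem_union_right _ (mem_filter.2 ⟨hn1, hp', ?_⟩))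
          rw [hit hl hp' h]
          exact hlN
    have hcard : (((Icc 1 N).filter (fun n : ℕ => (b * (n - b) - 1).Prime ∧
        (c * (n - c) - 1).Prime)).card : ℝ) ≤
        (((Icc 1 N).filter (fun n : ℕ => ∀ l : ℕ, l.Prime → 5 ≤ l → (l : ℝ) ≤ (N : ℝ) ^ δ₂ →
          n % l ∉ R b l ∪ R c l)).card : ℝ) + ((((Icc 1 N).filter (fun n : ℕ =>
          (b * (n - b) - 1).Prime ∧ ((b * (n - b) - 1 : ℕ) : ℝ) ≤ (N : ℝ) ^ δ₂)).card : ℝ) +
          (((Icc 1 N).filter (fun n : ℕ =>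
          (c * (n - c) - 1).Prime ∧ ((c * (n - c) - 1 : ℕ) : ℝ) ≤ (N : ℝ) ^ δ₂)).card : ℝ)) := by
      exact_mod_cast (card_le_card hsub).trans ((card_union_le _ _).trans
        (Nat.add_le_add_left (card_union_le _ _) _))
    have hsm := (small hN hδ₂').2
    have hff := one_le_ff (EE b c)
    have hX : 0 ≤ (N : ℝ) / Real.log N ^ 2 := by positivity
    have h3 : 64 * ((N : ℝ) / Real.log N ^ 2) ≤
        (C₁ + 64) * (N / Real.log N ^ 2) * ff (EE b c) := by
      have h4 : 64 * ((N : ℝ) / Real.log N ^ 2) ≤ (C₁ + 64) * (N / Real.log N ^ 2) :=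
        mul_le_mul_of_nonneg_right (by linarith) hX
      have h5 : (C₁ + 64) * ((N : ℝ) / Real.log N ^ 2) * 1 ≤
          (C₁ + 64) * (N / Real.log N ^ 2) * ff (EE b c) :=
        mul_le_mul_of_nonneg_left hff (by positivity)
      linarith
    have h6 : (C₁ + C₂ + 64) * ((N : ℝ) / Real.log N ^ 2) * ff (EE b c) =
        C₂ * (N / Real.log N ^ 2) * ff (EE b c) +
        (C₁ + 64) * (N / Real.log N ^ 2) * ff (EE b c) := by ring
    rw [h6]
    linarith

end Pool.Agent.Helper86.KN
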